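import Mathlib
import Pool.Agent.R592.Gp.Sing

set_option autoImplicit false

/-!
MP_c06a36_lc: every group of cardinality of the continuum is abstractly Borelian.
-/

namespace Pool.Agent.Results.MP_c06a36_lc.AllGroups

open Cardinal MeasureTheory Set

/-- The `σ`-algebra `𝓑(A)` generated by the sequence `A`. -/
@[reducible] def sigmaOf {E : Type} (A : ℕ → Set E) : MeasurableSpace E :=
  MeasurableSpace.generateFrom (Set.range A)

/-- The sequence `A` is measurable: `𝓑(A)` carries a countably additive probability measure that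
vanishes on every singleton belonging to `𝓑(A)`. -/
def IsMeasurableSeq {E : Type} (A : ℕ → Set E) : Prop :=
  ∃ m : @Measure E (sigmaOf A), m Set.univ = 1 ∧ ∀ x, MeasurableSet[sigmaOf A] {x} → m {x} = 0

/-- The `σ`-algebra on `E³` generated by the products `B₁ × B₂ × B₃`, `Bᵢ ∈ 𝓑(A)`. -/
@[reducible] def cubeSigma {E : Type} (A : ℕ → Set E) : MeasurableSpace (E × E × E) :=
  MeasurableSpace.generateFrom {S | ∃ B₁ B₂ B₃ : Set E, MeasurableSet[sigmaOf A] B₁ ∧
    MeasurableSet[sigmaOf A] B₂ ∧ MeasurableSet[sigmaOf A] B₃ ∧ S = B₁ ×ˢ B₂ ×ˢ B₃}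

/-- The group `E` is abstractly Borelian: its representation `{(x, y, z) : x * y = z}` is Borelian
with respect to at least one measurable sequence. -/
def IsAbstractlyBorelian (E : Type) [Group E] : Prop :=
  ∃ A : ℕ → Set E, IsMeasurableSeq A ∧
    MeasurableSet[cubeSigma A] {p : E × E × E | p.1 * p.2.1 = p.2.2}

lemma prod_le {E : Type} (A : ℕ → Set E) :
    (sigmaOf A).prod ((sigmaOf A).prod (sigmaOf A)) ≤ cubeSigma A := by
  have h1 : @Measurable (E × E × E) E (cubeSigma A) (sigmaOf A) (fun p => p.1) := by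
    intro B hB
    refine MeasurableSpace.measurableSet_generateFrom ⟨B, Set.univ, Set.univ, hB,
      @MeasurableSet.univ E (sigmaOf A), @MeasurableSet.univ E (sigmaOf A), ?_⟩
    ext p; simp
  have h2 : @Measurable (E × E × E) E (cubeSigma A) (sigmaOf A) (fun p => p.2.1) := by
    intro B hB
    refine MeasurableSpace.measurableSet_generateFrom ⟨Set.univ, B, Set.univ,
      @MeasurableSet.univ E (sigmaOf A), hB, @MeasurableSet.univ E (sigmaOf A), ?_⟩
    ext p; simp
  have h3 : @Measurable (E × E × E) E (cubeSigma A) (sigmaOf A) (fun p => p.2.2) := by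
    intro B hB
    refine MeasurableSpace.measurableSet_generateFrom ⟨Set.univ, Set.univ, B,
      @MeasurableSet.univ E (sigmaOf A), @MeasurableSet.univ E (sigmaOf A), hB, ?_⟩
    ext p; simp
  have h : @Measurable (E × E × E) (E × E × E) (cubeSigma A)
      ((sigmaOf A).prod ((sigmaOf A).prod (sigmaOf A))) (fun p => (p.1, p.2.1, p.2.2)) :=
    @Measurable.prodMk (E × E × E) (cubeSigma A) E (E × E) (sigmaOf A)
      ((sigmaOf A).prod (sigmaOf A)) _ _ h1
      (@Measurable.prodMk (E × E × E) (cubeSigma A) E E (sigmaOf A) (sigmaOf A) _ _ h2 h3)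
  intro S hS
  exact h hS

/-- Every group of cardinality `𝔠` is abstractly Borelian. -/
theorem result : ∀ (E : Type) [Group E], #E = 𝔠 → IsAbstractlyBorelian E := by
  intro E _ hE
  obtain ⟨A, hA, hB⟩ := Pool.Agent.R592.Gp.Sg.abs_all hE
  exact ⟨A, hA, prod_le A _ hB⟩

end Pool.Agent.Results.MP_c06a36_lc.AllGroups
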